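import Pool.Agent.Lib.A590Final

/-!
For every `k ≥ 3` the degree-8 foliations of `P^k` carrying a nonzero directed positive closed
current do not form a countable union of analytic subsets of the space of foliations.
-/

open A590

namespace Pool.Agent.Results.MP_a590e5_an.NotUnion

/-- A strongly directed current is directed, so both sets are admissible values of `C` below. -/
theorem bcStrong_subset (n d : ℕ) : BcStrong n d ⊆ Bc n d := by
  rintro c ⟨T, h0, h1, -, h3, h4⟩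
  refine ⟨T, h0, h1, h3, fun α γ _ _ h _ φ hφ => h4 φ fun z hz k => ?_⟩
  have : ∑ j, φ.1 z j k * field c z j = (∑ j, α z j * field c z j) * γ z k := by
    rw [Finset.sum_mul]
    exact Finset.sum_congr rfl fun j _ => by rw [hφ z hz]; ring
  rw [this, h z hz, zero_mul]

/-- The fields with coprime coefficients form an admissible value of `B` below. -/
theorem fol_subset (n d : ℕ) :
    Fol n d ⊆ {c | ∀ g : MvPolynomial (Fin n) ℂ, (∀ i, g ∣ poly c i) → IsUnit g} :=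
  fun _ hc g hg => hc g fun i j => ((hg j).mul_left _).sub ((hg i).mul_left _)

theorem result (k : ℕ) (hk : 3 ≤ k) (B C : Set (Coeff (k + 1) 8))
    (hB : Fol (k + 1) 8 ⊆ B) (hC1 : BcStrong (k + 1) 8 ⊆ C) (hC2 : C ⊆ Bc (k + 1) 8) :
    ¬ ∃ A : ℕ → Set (Coeff (k + 1) 8),
      (∀ i, IsAnalyticSubset B (A i)) ∧ B ∩ C = ⋃ i, A i := by
  rintro ⟨A, hA, hU⟩
  refine A590.final k hk ⟨fun i => A i ∩ Fol (k + 1) 8, fun i => ⟨Set.inter_subset_right,
    fun p hp => ?_⟩, fun c hc => ?_, fun c hc => ?_⟩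
  · obtain ⟨U, h1, h2, r, g, h3, h4⟩ := (hA i).2 p (hB hp)
    refine ⟨U, h1, h2, r, g, h3, Set.ext fun x => ⟨fun hx => ?_, fun hx => ?_⟩⟩
    · exact ⟨⟨hx.1.2, hx.2⟩, (h4.subset ⟨hx.1.1, hx.2⟩).2⟩
    · exact ⟨⟨(h4.symm.subset ⟨⟨hB hx.1.1, hx.1.2⟩, hx.2⟩).1, hx.1.1⟩, hx.1.2⟩
  · obtain ⟨i, hi⟩ := Set.mem_iUnion.1 (hU.subset ⟨hB hc.1, hC1 hc.2⟩)
    exact Set.mem_iUnion.2 ⟨i, hi, hc.1⟩
  · obtain ⟨i, hi⟩ := Set.mem_iUnion.1 hc
    exact hC2 (hU.symm.subset (Set.mem_iUnion.2 ⟨i, hi.1⟩)).2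

end Pool.Agent.Results.MP_a590e5_an.NotUnion
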